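import Mathlib

set_option autoImplicit false

/-!
# MP_1ce666_co: permutations avoiding `321` and the arrow pattern `(12; 1 → 3)`

Let `π` avoid `321`.  The cycles of `θ⁻¹(π)` are the blocks of `π` that begin at the left-to-right
maxima.  The arrow pattern occurs iff some block of size at least two, with leader `M`, has a letter
smaller than `M` after it.  So `π` avoids both patterns iff every block of size at least two ends a
prefix of `π` that is closed (a permutation of an initial segment of the values).  Giving a value the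
class `2` if it is not a left-to-right maximum, `1` if it leads a block of size at least two, and `0`
otherwise, such `π` correspond to the words over `{0, 1, 2}` in which every `1` has a `2` between
it and the previous `1`, and there is no `2` after the last `1`.  These are counted by
`F_{2n-1}`.
-/

open Finset

namespace Pool.Agent.Results.MP_1ce666_co.Fibonacci

/-- `IsCycleForm σ π b`: the word `π(0) π(1) ⋯ π(n-1)` becomes the standard cycle form of `σ` (fixed
points included) when it is cut into cycles, where `b i` is the place at which the cycle containing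
the letter at place `i` begins.  The cycles are intervals of places (`le`, `mono`, `idem`); `σ` maps
each letter to the next letter of its cycle (`step`), and the last letter of a cycle to the first one
(`last`); each cycle begins with its largest letter (`first`); the cycles are ordered by increasing
largest letter (`order`). -/
structure IsCycleForm {n : ℕ} (σ π : Equiv.Perm (Fin n)) (b : Fin n → Fin n) : Prop where
  le : ∀ i, b i ≤ i
  mono : ∀ i j, i ≤ j → b i ≤ b j
  idem : ∀ i, b (b i) = b i
  step : ∀ i j : Fin n, (j : ℕ) = i + 1 → b j = b i → σ (π i) = π j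
  last : ∀ i : Fin n, (∀ j : Fin n, (j : ℕ) = i + 1 → b j ≠ b i) → σ (π i) = π (b i)
  first : ∀ i, π i ≤ π (b i)
  order : ∀ i j, b i < b j → π (b i) < π (b j)

/-- `θ(σ) = π` (with `σ`, `π` permutations of `{0, …, n-1}`). -/
def IsTheta {n : ℕ} (σ π : Equiv.Perm (Fin n)) : Prop := ∃ b, IsCycleForm σ π b

/-- `π` contains the pattern `321`. -/
def Contains321 {n : ℕ} (π : Equiv.Perm (Fin n)) : Prop :=
  ∃ i j k, i < j ∧ j < k ∧ π j < π i ∧ π k < π j

/-- `π` contains the arrow pattern `(12; 1 → 3)`: there are values `x₁ < x₂ < x₃`, with `x₁ = π i`,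
`x₂ = π j`, `i < j`, and `x₃ = σ(x₁)` where `σ = θ⁻¹(π)`. -/
def ContainsArrow {n : ℕ} (π : Equiv.Perm (Fin n)) : Prop :=
  ∃ σ, IsTheta σ π ∧ ∃ i j, i < j ∧ π i < π j ∧ π j < σ (π i)

/-- The number of permutations of `n` elements that avoid `321` and `(12; 1 → 3)`. -/
noncomputable def a (n : ℕ) : ℕ := by
  classical
  exact (univ.filter fun π : Equiv.Perm (Fin n) => ¬ Contains321 π ∧ ¬ ContainsArrow π).card

/-! ### Left-to-right maxima and blocks -/

variable {n : ℕ}

/-- left-to-right maximum at place `i` -/
def LR (π : Equiv.Perm (Fin n)) (i : Fin n) : Prop := ∀ q, q < i → π q < π i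

theorem not_LR {π : Equiv.Perm (Fin n)} {i : Fin n} (h : ¬ LR π i) : ∃ q, q < i ∧ π i < π q := by
  unfold LR at h
  push Not at h
  obtain ⟨q, h1, h2⟩ := h
  exact ⟨q, h1, lt_of_le_of_ne h2 fun he => h1.ne (π.injective he).symm⟩

theorem exists_begin (π : Equiv.Perm (Fin n)) (i : Fin n) :
    ∃ m, m ≤ i ∧ LR π m ∧ ∀ q, m < q → q ≤ i → ¬ LR π q := by
  classical
  have h0 : (univ.filter fun m => m ≤ i ∧ LR π m).Nonempty := by
    refine ⟨⟨0, lt_of_le_of_lt (Nat.zero_le _) i.isLt⟩, ?_⟩
    simp only [Finset.mem_filter, Finset.mem_univ, true_and]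
    refine ⟨by rw [Fin.le_def]; exact Nat.zero_le _, fun q hq => ?_⟩
    rw [Fin.lt_def] at hq
    exact absurd hq (Nat.not_lt_zero _)
  obtain ⟨m, hm, hmax⟩ := Finset.exists_max_image _ id h0
  simp only [Finset.mem_filter, Finset.mem_univ, true_and, id] at hm hmax
  refine ⟨m, hm.1, hm.2, fun q hq hqi hL => ?_⟩
  exact absurd (hmax q ⟨hqi, hL⟩) (not_le.2 hq)

/-- the place where the block of place `i` begins -/
noncomputable def beg (π : Equiv.Perm (Fin n)) (i : Fin n) : Fin n :=
  Classical.choose (exists_begin π i)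

theorem beg_le (π : Equiv.Perm (Fin n)) (i : Fin n) : beg π i ≤ i :=
  (Classical.choose_spec (exists_begin π i)).1

theorem beg_LR (π : Equiv.Perm (Fin n)) (i : Fin n) : LR π (beg π i) :=
  (Classical.choose_spec (exists_begin π i)).2.1

theorem beg_not (π : Equiv.Perm (Fin n)) (i q : Fin n) (h1 : beg π i < q) (h2 : q ≤ i) :
    ¬ LR π q := (Classical.choose_spec (exists_begin π i)).2.2 q h1 h2

theorem beg_unique (π : Equiv.Perm (Fin n)) (i m : Fin n) (h1 : m ≤ i) (h2 : LR π m)
    (h3 : ∀ q, m < q → q ≤ i → ¬ LR π q) : beg π i = m := by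
  rcases lt_trichotomy (beg π i) m with h | h | h
  · exact absurd h2 (beg_not π i m h h1)
  · exact h
  · exact absurd (beg_LR π i) (h3 _ h (beg_le π i))

theorem beg_of_LR (π : Equiv.Perm (Fin n)) (i : Fin n) (h : LR π i) : beg π i = i :=
  beg_unique π i i le_rfl h fun _ h1 h2 => absurd h1 (not_lt.2 h2)

theorem LR_iff (π : Equiv.Perm (Fin n)) (i : Fin n) : LR π i ↔ beg π i = i := by
  constructor
  · exact beg_of_LR π i
  · intro h
    rw [← h]
    exact beg_LR π i

theorem beg_mono (π : Equiv.Perm (Fin n)) (i j : Fin n) (h : i ≤ j) : beg π i ≤ beg π j := by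
  by_contra hc
  exact beg_not π j _ (not_le.1 hc) ((beg_le π i).trans h) (beg_LR π i)

theorem beg_max (π : Equiv.Perm (Fin n)) (i : Fin n) : ∀ q, q ≤ i → π q ≤ π (beg π i) := by
  intro q
  induction q using WellFoundedLT.induction with
  | _ q ih =>
    intro hq
    rcases lt_trichotomy q (beg π i) with h | h | h
    · exact (beg_LR π i q h).le
    · rw [h]
    · obtain ⟨p, hp, hpq⟩ := not_LR (beg_not π i q h hq)
      exact hpq.le.trans (ih p hp (hp.le.trans hq))

/-- every permutation has a cycle form -/
theorem exists_form (π : Equiv.Perm (Fin n)) : ∃ σ, IsCycleForm σ π (beg π) := by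
  classical
  let s : Fin n → Fin n := fun i =>
    if h : ∃ j : Fin n, (j : ℕ) = i + 1 ∧ beg π j = beg π i then Classical.choose h else beg π i
  have s1 : ∀ i j : Fin n, (j : ℕ) = i + 1 → beg π j = beg π i → s i = j := by
    intro i j h1 h2
    have h : ∃ j : Fin n, (j : ℕ) = i + 1 ∧ beg π j = beg π i := ⟨j, h1, h2⟩
    have h3 : s i = Classical.choose h := dif_pos h
    rw [h3]
    ext
    rw [(Classical.choose_spec h).1, h1]
  have s2 : ∀ i : Fin n, (∀ j : Fin n, (j : ℕ) = i + 1 → beg π j ≠ beg π i) → s i = beg π i := by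
    intro i h
    refine dif_neg ?_
    rintro ⟨j, h1, h2⟩
    exact h j h1 h2
  have hinj : Function.Injective s := by
    have mixed : ∀ i j : Fin n, (∃ k : Fin n, (k : ℕ) = i + 1 ∧ beg π k = beg π i) →
        (∀ k : Fin n, (k : ℕ) = j + 1 → beg π k ≠ beg π j) → s i ≠ s j := by
      rintro i j ⟨k, hk1, hk2⟩ h2 he
      rw [s1 i k hk1 hk2, s2 j h2] at he
      have h3 : beg π k = k := by rw [he]; exact beg_of_LR π _ (beg_LR π j)
      have h4 := beg_le π i
      rw [← hk2, h3, Fin.le_def] at h4
      omega
    intro i j hij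
    by_cases hi : ∃ k : Fin n, (k : ℕ) = i + 1 ∧ beg π k = beg π i
    · by_cases hj : ∃ k : Fin n, (k : ℕ) = j + 1 ∧ beg π k = beg π j
      · obtain ⟨k, hk1, hk2⟩ := hi
        obtain ⟨l, hl1, hl2⟩ := hj
        rw [s1 i k hk1 hk2, s1 j l hl1 hl2] at hij
        ext
        rw [hij] at hk1
        omega
      · push Not at hj
        exact absurd hij (mixed i j hi hj)
    · by_cases hj : ∃ k : Fin n, (k : ℕ) = j + 1 ∧ beg π k = beg π j
      · push Not at hi
        exact absurd hij.symm (mixed j i hj hi)
      · push Not at hi hj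
        rw [s2 i hi, s2 j hj] at hij
        have key : ∀ i j : Fin n, beg π i = beg π j →
            (∀ k : Fin n, (k : ℕ) = i + 1 → beg π k ≠ beg π i) → ¬ i < j := by
          intro i j hij hi hlt
          rw [Fin.lt_def] at hlt
          have hj := j.isLt
          refine hi ⟨i + 1, by omega⟩ rfl ?_
          refine le_antisymm ?_ ?_
          · rw [hij]
            exact beg_mono π _ _ (by rw [Fin.le_def]; exact hlt)
          · exact beg_mono π _ _ (by rw [Fin.le_def]; simp)
        rcases lt_trichotomy i j with h | h | h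
        · exact absurd h (key i j hij hi)
        · exact h
        · exact absurd h (key j i hij.symm hj)
  let s' : Equiv.Perm (Fin n) := Equiv.ofBijective s (Finite.injective_iff_bijective.1 hinj)
  refine ⟨(π.symm.trans s').trans π, ?_⟩
  have hs : ∀ i, ((π.symm.trans s').trans π) (π i) = π (s i) := by
    intro i
    simp [s']
  refine ⟨beg_le π, beg_mono π, fun i => beg_of_LR π _ (beg_LR π i), ?_, ?_, ?_, ?_⟩
  · intro i j h1 h2
    rw [hs, s1 i j h1 h2]
  · intro i h
    rw [hs, s2 i h]
  · intro i
    exact beg_max π i i le_rfl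
  · intro i j h
    exact beg_LR π j _ h

/-- the closed prefixes -/
theorem closed {π : Equiv.Perm (Fin n)} (h1 : ¬ Contains321 π) (h2 : ¬ ContainsArrow π)
    (k : Fin n) (hk : ¬ LR π k) (hk' : ∀ q : Fin n, (q : ℕ) = k + 1 → LR π q) (i j : Fin n)
    (hi : i ≤ k) (hj : k < j) : π i < π j := by
  by_contra hc
  have hij : i ≠ j := by
    rintro rfl
    exact absurd hj (not_lt.2 hi)
  have hji : π j < π i := lt_of_le_of_ne (not_lt.1 hc) fun he => hij (π.injective he).symm
  have hM : π j < π (beg π k) := lt_of_lt_of_le hji (beg_max π k i hi)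
  have hkj : π k < π j := by
    by_contra hc'
    have h3 : π j < π k := lt_of_le_of_ne (not_lt.1 hc') fun he => hj.ne' (π.injective he)
    obtain ⟨q, hq, hq'⟩ := not_LR hk
    exact h1 ⟨q, k, j, hq, hj, hq', h3⟩
  obtain ⟨σ, hσ⟩ := exists_form π
  refine h2 ⟨σ, ⟨_, hσ⟩, k, j, hj, hkj, ?_⟩
  rw [hσ.last k]
  · exact hM
  · intro q hq he
    have h3 := beg_of_LR π q (hk' q hq)
    rw [h3] at he
    have h4 := beg_le π k
    rw [← he, Fin.le_def] at h4
    omega

/-- the end of a block of size at least two -/
theorem exists_end {π : Equiv.Perm (Fin n)} (m q : Fin n) (hmq : (q : ℕ) = m + 1)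
    (hm : LR π m) (hq : ¬ LR π q) : ∃ k, m < k ∧ ¬ LR π k ∧ beg π k = m ∧
      ∀ p : Fin n, (p : ℕ) = k + 1 → LR π p := by
  classical
  have h0 : (univ.filter fun k => m < k ∧ beg π k = m).Nonempty := by
    refine ⟨q, ?_⟩
    simp only [Finset.mem_filter, Finset.mem_univ, true_and]
    refine ⟨by rw [Fin.lt_def]; omega, beg_unique π q m (by rw [Fin.le_def]; omega) hm ?_⟩
    intro p hp1 hp2
    have : p = q := by
      rw [Fin.lt_def] at hp1
      rw [Fin.le_def] at hp2
      ext
      omega
    rw [this]
    exact hq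
  obtain ⟨k, hk, hmax⟩ := Finset.exists_max_image _ id h0
  simp only [Finset.mem_filter, Finset.mem_univ, true_and, id] at hk hmax
  refine ⟨k, hk.1, ?_, hk.2, ?_⟩
  · intro hL
    rw [LR_iff, hk.2] at hL
    exact hk.1.ne hL
  · intro p hp
    by_contra hL
    have h3 : beg π p = m := by
      refine beg_unique π p m (by rw [Fin.le_def]; have := hk.1; rw [Fin.lt_def] at this; omega) hm
        ?_
      intro r hr1 hr2
      rcases hr2.lt_or_eq with h4 | h4
      · refine beg_not π k r (by rw [hk.2]; exact hr1) ?_
        rw [Fin.lt_def] at h4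
        rw [Fin.le_def]
        omega
      · rw [h4]
        exact hL
    have h4 := hmax p ⟨by have := hk.1; rw [Fin.lt_def] at this ⊢; omega, h3⟩
    rw [Fin.le_def] at h4
    omega

/-! ### Codes -/

/-- the class of a place -/
noncomputable def cl (π : Equiv.Perm (Fin n)) (i : Fin n) : Fin 3 := by
  classical
  exact if ¬ LR π i then 2 else if ∃ q : Fin n, (q : ℕ) = i + 1 ∧ ¬ LR π q then 1 else 0

theorem cl_two (π : Equiv.Perm (Fin n)) (i : Fin n) : cl π i = 2 ↔ ¬ LR π i := by
  by_cases h1 : LR π i
  · by_cases h2 : ∃ q : Fin n, (q : ℕ) = i + 1 ∧ ¬ LR π q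
    · have : cl π i = 1 := by
        unfold cl
        rw [if_neg (not_not.2 h1), if_pos h2]
      rw [this]
      simp [h1]
    · have : cl π i = 0 := by
        unfold cl
        rw [if_neg (not_not.2 h1), if_neg h2]
      rw [this]
      simp [h1]
  · have : cl π i = 2 := by
      unfold cl
      rw [if_pos h1]
    simp [this, h1]

theorem cl_one (π : Equiv.Perm (Fin n)) (i : Fin n) : cl π i = 1 ↔ LR π i ∧
    ∃ q : Fin n, (q : ℕ) = i + 1 ∧ ¬ LR π q := by
  by_cases h1 : LR π i
  · by_cases h2 : ∃ q : Fin n, (q : ℕ) = i + 1 ∧ ¬ LR π q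
    · have : cl π i = 1 := by
        unfold cl
        rw [if_neg (not_not.2 h1), if_pos h2]
      exact ⟨fun _ => ⟨h1, h2⟩, fun _ => this⟩
    · have : cl π i = 0 := by
        unfold cl
        rw [if_neg (not_not.2 h1), if_neg h2]
      rw [this]
      refine ⟨fun h => absurd h (by decide), fun h => absurd h.2 h2⟩
  · have : cl π i = 2 := by
      unfold cl
      rw [if_pos h1]
    rw [this]
    exact ⟨fun h => absurd h (by decide), fun h => absurd h.1 h1⟩

/-- the code of a permutation -/
noncomputable def code (π : Equiv.Perm (Fin n)) (v : Fin n) : Fin 3 := cl π (π.symm v)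

theorem code_apply (π : Equiv.Perm (Fin n)) (i : Fin n) : code π (π i) = cl π i := by
  simp [code]

/-- number of `1`s before `v` -/
def t (c : Fin n → Fin 3) (v : Fin n) : ℕ := (univ.filter fun M => M < v ∧ c M = 1).card

theorem t_mono (c : Fin n → Fin 3) {u v : Fin n} (h : u ≤ v) : t c u ≤ t c v := by
  refine Finset.card_le_card fun M hM => ?_
  simp only [Finset.mem_filter, Finset.mem_univ, true_and] at hM ⊢
  exact ⟨lt_of_lt_of_le hM.1 h, hM.2⟩

theorem t_lt (c : Fin n → Fin 3) {u M v : Fin n} (h1 : u ≤ M) (h2 : M < v) (hM : c M = 1) :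
    t c u < t c v := by
  refine Finset.card_lt_card ⟨fun x hx => ?_, fun hs => ?_⟩
  · simp only [Finset.mem_filter, Finset.mem_univ, true_and] at hx ⊢
    exact ⟨hx.1.trans_le (h1.trans h2.le), hx.2⟩
  · have : M ∈ univ.filter fun M => M < u ∧ c M = 1 := hs (by simp [h2, hM])
    simp only [Finset.mem_filter, Finset.mem_univ, true_and] at this
    exact absurd this.1 (not_lt.2 h1)

theorem exists_of_t_lt (c : Fin n → Fin 3) {u v : Fin n} (h : t c u < t c v) :
    ∃ M, u ≤ M ∧ M < v ∧ c M = 1 := by
  by_contra hc
  push Not at hc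
  refine absurd h (not_lt.2 (Finset.card_le_card fun M hM => ?_))
  simp only [Finset.mem_filter, Finset.mem_univ, true_and] at hM ⊢
  refine ⟨?_, hM.2⟩
  by_contra h2
  exact hc M (not_lt.1 h2) hM.1 hM.2

theorem t_eq (c : Fin n → Fin 3) {u v : Fin n} (huv : u ≤ v)
    (h : ∀ M, u ≤ M → M < v → c M ≠ 1) : t c u = t c v := by
  rcases (t_mono c huv).lt_or_eq with h1 | h1
  · obtain ⟨M, h2, h3, h4⟩ := exists_of_t_lt c h1
    exact absurd h4 (h M h2 h3)
  · exact h1

/-- the key -/
def K (c : Fin n → Fin 3) (v : Fin n) : ℕ := (t c v * 3 + (c v : ℕ)) * n + v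

theorem key_lt (A B u v m : ℕ) (hu : u < m) (hv : v < m) :
    A * m + u < B * m + v ↔ A < B ∨ (A = B ∧ u < v) := by
  constructor
  · intro h
    rcases lt_trichotomy A B with h1 | h1 | h1
    · exact Or.inl h1
    · subst h1
      exact Or.inr ⟨rfl, by omega⟩
    · exfalso
      have : (B + 1) * m ≤ A * m := Nat.mul_le_mul_right _ h1
      rw [add_mul] at this
      omega
  · rintro (h1 | ⟨h1, h2⟩)
    · have : (A + 1) * m ≤ B * m := Nat.mul_le_mul_right _ h1
      rw [add_mul] at this
      omega
    · subst h1
      omega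

theorem K_lt (c : Fin n → Fin 3) (u v : Fin n) : K c u < K c v ↔
    t c u < t c v ∨ (t c u = t c v ∧ ((c u : ℕ) < c v ∨ ((c u : ℕ) = c v ∧ u < v))) := by
  unfold K
  rw [key_lt _ _ _ _ _ u.isLt v.isLt, Fin.lt_def]
  have h1 := (c u).isLt
  have h2 := (c v).isLt
  constructor
  · intro h
    omega
  · intro h
    omega

theorem K_inj (c : Fin n → Fin 3) {u v : Fin n} (h : K c u = K c v) : u = v := by
  have h1 : ¬ K c u < K c v := by omega
  have h2 : ¬ K c v < K c u := by omega
  rw [K_lt] at h1 h2
  push Not at h1 h2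
  rcases lt_trichotomy (t c u) (t c v) with h3 | h3 | h3
  · exact absurd h3 (by omega)
  · have h4 := (h1.2 h3)
    have h5 := (h2.2 h3.symm)
    have h6 : (c u : ℕ) = c v := by omega
    exact le_antisymm (h5.2 h6.symm) (h4.2 h6)
  · exact absurd h3 (by omega)

/-- accepted codes -/
def P (c : Fin n → Fin 3) : Prop :=
  ∀ M, c M = 1 → ∃ v, v < M ∧ c v = 2 ∧ ∀ u, v < u → u < M → c u ≠ 1

/-- there is a `2` after the last `1` -/
def Q (c : Fin n → Fin 3) : Prop := ∃ v, c v = 2 ∧ ∀ u, v < u → c u ≠ 1

/-- the code sorts an avoiding permutation -/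
theorem K_code {π : Equiv.Perm (Fin n)} (h1 : ¬ Contains321 π) (h2 : ¬ ContainsArrow π)
    (i j : Fin n) (hij : i < j) : K (code π) (π i) < K (code π) (π j) := by
  have step1 : t (code π) (π i) ≤ t (code π) (π j) := by
    by_contra hc
    obtain ⟨M, hM1, hM2, hM3⟩ := exists_of_t_lt _ (not_le.1 hc)
    obtain ⟨m, rfl⟩ := π.surjective M
    rw [code_apply, cl_one] at hM3
    obtain ⟨hm, q, hq, hq'⟩ := hM3
    obtain ⟨k, hmk, hk, hbk, hk'⟩ := exists_end m q hq hm hq'
    have hi : k < i := by
      by_contra hc'
      have := beg_max π k i (not_lt.1 hc')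
      rw [hbk] at this
      exact absurd hM2 (not_lt.2 this)
    have := closed h1 h2 k hk hk' m j hmk.le (hi.trans hij)
    exact absurd hM1 (not_le.2 this)
  rw [K_lt]
  rcases step1.lt_or_eq with h | h
  · exact Or.inl h
  · refine Or.inr ⟨h, ?_⟩
    rw [code_apply, code_apply]
    -- if `j` is a left-to-right maximum, then `i` is of class `0`
    have key : LR π j → cl π i = 0 := by
      intro hj
      by_cases hi : LR π i
      · by_contra hne
        have hc1 : cl π i = 1 := by
          have h3 : cl π i ≠ 2 := fun h4 => (cl_two π i).1 h4 hi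
          generalize cl π i = x at hne h3
          fin_cases x <;> simp_all
        have := t_lt (code π) (u := π i) (M := π i) (v := π j) le_rfl (hj i hij)
          (by rw [code_apply]; exact hc1)
        omega
      · exfalso
        have hb : beg π i < i := lt_of_le_of_ne (beg_le π i) fun he => hi ((LR_iff π i).2 he)
        have hb' := hb
        rw [Fin.lt_def] at hb'
        have hlt := i.isLt
        have hc1 : cl π (beg π i) = 1 := by
          rw [cl_one]
          refine ⟨beg_LR π i, ⟨beg π i + 1, by omega⟩, rfl, ?_⟩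
          exact beg_not π i _ (by rw [Fin.lt_def]; simp) (by rw [Fin.le_def]; exact hb')
        have := t_lt (code π) (u := π i) (M := π (beg π i)) (v := π j)
          (beg_max π i i le_rfl) (hj _ (hb.trans hij)) (by rw [code_apply]; exact hc1)
        omega
    by_cases hj : LR π j
    · have h3 := key hj
      by_cases h4 : cl π j = 0
      · right
        rw [h3, h4]
        exact ⟨rfl, hj i hij⟩
      · left
        rw [h3]
        exact Nat.pos_of_ne_zero fun h5 => h4 (Fin.ext h5)
    · have h3 := (cl_two π j).2 hj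
      by_cases hi : LR π i
      · left
        have h4 : cl π i ≠ 2 := fun h5 => (cl_two π i).1 h5 hi
        rw [h3]
        have := (cl π i).isLt
        have h5 : (cl π i : ℕ) ≠ 2 := fun h6 => h4 (Fin.ext h6)
        show (cl π i : ℕ) < 2
        omega
      · right
        rw [h3, (cl_two π i).2 hi]
        refine ⟨rfl, ?_⟩
        by_contra hc'
        have h5 : π j < π i := lt_of_le_of_ne (not_lt.1 hc') fun he => hij.ne' (π.injective he)
        obtain ⟨q, hq, hq'⟩ := not_LR hi
        exact h1 ⟨q, i, j, hq, hij, hq', h5⟩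

theorem code_P {π : Equiv.Perm (Fin n)} (h1 : ¬ Contains321 π) (h2 : ¬ ContainsArrow π) :
    P (code π) := by
  intro M hM
  obtain ⟨m, rfl⟩ := π.surjective M
  rw [code_apply, cl_one] at hM
  obtain ⟨hm, q, hq, hq'⟩ := hM
  have hmq : m < q := by rw [Fin.lt_def]; omega
  refine ⟨π q, ?_, by rw [code_apply, cl_two]; exact hq', ?_⟩
  · obtain ⟨p, hp, hp'⟩ := not_LR hq'
    have hpm : p ≤ m := by
      rw [Fin.lt_def] at hp
      rw [Fin.le_def]
      omega
    rcases hpm.lt_or_eq with h | h
    · exact hp'.trans (hm p h)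
    · rwa [h] at hp'
  · intro u hu1 hu2 hu3
    obtain ⟨r, rfl⟩ := π.surjective u
    rw [code_apply, cl_one] at hu3
    obtain ⟨hr, s, hs, hs'⟩ := hu3
    rcases lt_trichotomy r m with h | h | h
    · obtain ⟨k, hrk, hk, hbk, hk'⟩ := exists_end r s hs hr hs'
      have hkm : k < m := by
        by_contra hc
        have h3 := beg_not π k m (by rw [hbk]; exact h) (not_lt.1 hc)
        exact h3 hm
      have := closed h1 h2 k hk hk' r q hrk.le (hkm.trans hmq)
      exact absurd hu1 (not_lt.2 this.le)
    · rw [h] at hu2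
      exact lt_irrefl _ hu2
    · exact absurd hu2 (not_lt.2 (hr m h).le)

theorem code_Q (π : Equiv.Perm (Fin n)) : ¬ Q (code π) := by
  rintro ⟨v, hv, h⟩
  obtain ⟨i, rfl⟩ := π.surjective v
  rw [code_apply, cl_two] at hv
  have hb : beg π i < i := lt_of_le_of_ne (beg_le π i) fun he => hv ((LR_iff π i).2 he)
  have hb' := hb
  rw [Fin.lt_def] at hb'
  have hlt := i.isLt
  refine h (π (beg π i)) ?_ ?_
  · refine lt_of_le_of_ne (beg_max π i i le_rfl) fun he => hb.ne (π.injective he).symm
  · rw [code_apply, cl_one]
    refine ⟨beg_LR π i, ⟨beg π i + 1, by omega⟩, rfl, ?_⟩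
    exact beg_not π i _ (by rw [Fin.lt_def]; simp) (by rw [Fin.le_def]; exact hb')

theorem code_inj {π π' : Equiv.Perm (Fin n)} (h1 : ¬ Contains321 π) (h2 : ¬ ContainsArrow π)
    (h1' : ¬ Contains321 π') (h2' : ¬ ContainsArrow π') (h : code π = code π') : π = π' := by
  have m1 : Monotone ((K (code π)) ∘ π) := by
    intro i j hij
    rcases hij.lt_or_eq with h3 | h3
    · exact (K_code h1 h2 i j h3).le
    · rw [h3]
  have m2 : Monotone ((K (code π)) ∘ π') := by
    intro i j hij
    rcases hij.lt_or_eq with h3 | h3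
    · rw [h]
      exact (K_code h1' h2' i j h3).le
    · rw [h3]
  have h3 := Tuple.unique_monotone m1 m2
  ext i
  have h4 := congrFun h3 i
  rw [K_inj _ h4]

/-- every accepted code is the code of an avoiding permutation -/
theorem code_surj (c : Fin n → Fin 3) (hP : P c) (hQ : ¬ Q c) :
    ∃ π : Equiv.Perm (Fin n), (¬ Contains321 π ∧ ¬ ContainsArrow π) ∧ code π = c := by
  classical
  let π : Equiv.Perm (Fin n) := Tuple.sort (K c)
  have hm : ∀ i j, i < j → K c (π i) < K c (π j) := by
    intro i j hij
    refine lt_of_le_of_ne (Tuple.monotone_sort (K c) hij.le) fun he => ?_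
    exact hij.ne (π.injective (K_inj c he))
  have hm' : ∀ i j, K c (π i) < K c (π j) → i < j := by
    intro i j h
    by_contra hc
    rcases (not_lt.1 hc).lt_or_eq with h1 | h1
    · exact lt_asymm h (hm j i h1)
    · rw [h1] at h
      exact lt_irrefl _ h
  have tlt : ∀ u v : Fin n, t c u < t c v → u < v := by
    intro u v h
    by_contra hc
    exact absurd h (not_lt.2 (t_mono c (not_lt.1 hc)))
  -- the next `1` after a `2`
  have next : ∀ v, c v = 2 → ∃ M, v < M ∧ c M = 1 ∧ t c v = t c M := by
    intro v hv
    have h0 : (univ.filter fun M => v < M ∧ c M = 1).Nonempty := by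
      by_contra hc
      rw [Finset.not_nonempty_iff_eq_empty] at hc
      refine hQ ⟨v, hv, fun u hu hu' => ?_⟩
      have : u ∈ univ.filter fun M => v < M ∧ c M = 1 := by simp [hu, hu']
      rw [hc] at this
      exact absurd this (Finset.notMem_empty _)
    obtain ⟨M, hM, hmin⟩ := Finset.exists_min_image _ id h0
    simp only [Finset.mem_filter, Finset.mem_univ, true_and, id] at hM hmin
    refine ⟨M, hM.1, hM.2, t_eq c hM.1.le fun u hu1 hu2 hu3 => ?_⟩
    rcases hu1.lt_or_eq with h | h
    · exact absurd hu2 (not_lt.2 (hmin u ⟨h, hu3⟩))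
    · rw [← h, hv] at hu3
      exact absurd hu3 (by decide)
  have hLR : ∀ i, LR π i ↔ c (π i) ≠ 2 := by
    intro i
    constructor
    · intro hL h
      obtain ⟨M, hM1, hM2, hM3⟩ := next (π i) h
      obtain ⟨m, rfl⟩ := π.surjective M
      have h3 : K c (π m) < K c (π i) := by
        rw [K_lt]
        right
        refine ⟨hM3.symm, Or.inl ?_⟩
        rw [h, hM2]
        decide
      exact absurd (hL m (hm' _ _ h3)) (not_lt.2 hM1.le)
    · intro h q hq
      have h3 := hm q i hq
      rw [K_lt] at h3
      rcases h3 with h3 | ⟨h3, h4 | h4⟩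
      · exact tlt _ _ h3
      · by_contra hc
        have hne : π q ≠ π i := fun he => hq.ne (π.injective he)
        have h5 : π i < π q := lt_of_le_of_ne (not_lt.1 hc) (Ne.symm hne)
        have h6 : c (π i) = 1 := by
          have h7 : (c (π i) : ℕ) ≠ 2 := fun h8 => h (Fin.ext h8)
          have h8 := (c (π i)).isLt
          ext
          show (c (π i) : ℕ) = 1
          omega
        have := t_lt c le_rfl h5 h6
        omega
      · exact h4.2
  have h321 : ∀ i j, ¬ LR π i → ¬ LR π j → i < j → π i < π j := by
    intro i j hi hj hij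
    rw [hLR, not_not] at hi hj
    have h3 := hm i j hij
    rw [K_lt] at h3
    rcases h3 with h3 | ⟨_, h4 | h4⟩
    · exact tlt _ _ h3
    · rw [hi, hj] at h4
      exact absurd h4 (lt_irrefl _)
    · exact h4.2
  refine ⟨π, ⟨?_, ?_⟩, ?_⟩
  · rintro ⟨i, j, k, hij, hjk, h1, h2⟩
    have hj : ¬ LR π j := fun h => absurd (h i hij) (not_lt.2 h1.le)
    have hk : ¬ LR π k := fun h => absurd (h j hjk) (not_lt.2 h2.le)
    exact absurd (h321 j k hj hk hjk) (not_lt.2 h2.le)
  · rintro ⟨σ, ⟨b, hb⟩, i, j, hij, h1, h2⟩
    by_cases hlast : ∀ q : Fin n, (q : ℕ) = i + 1 → b q ≠ b i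
    · rw [hb.last i hlast] at h2
      have hbi : b i < i := by
        refine lt_of_le_of_ne (hb.le i) fun he => ?_
        rw [he] at h2
        exact lt_asymm h1 h2
      have hi : ¬ LR π i := fun h => absurd (h _ hbi) (not_lt.2 (h1.trans h2).le)
      have hj : ¬ LR π j := fun h => absurd (h _ (hbi.trans hij)) (not_lt.2 h2.le)
      have hij' := hij
      rw [Fin.lt_def] at hij'
      have hjlt := j.isLt
      obtain ⟨q, hq⟩ : ∃ q : Fin n, (q : ℕ) = i + 1 := ⟨⟨i + 1, by omega⟩, rfl⟩
      have hiq : i < q := by rw [Fin.lt_def]; omega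
      have hqj : q ≤ j := by rw [Fin.le_def]; omega
      have hbq : b i < b q := lt_of_le_of_ne (hb.mono _ _ hiq.le) (Ne.symm (hlast q hq))
      have hqq : b q = q := by
        refine le_antisymm (hb.le q) ?_
        by_contra hc
        have h3 : b q ≤ i := by
          have h4 := not_le.1 hc
          rw [Fin.lt_def] at h4
          rw [Fin.le_def]
          omega
        have h4 := hb.mono _ _ h3
        rw [hb.idem] at h4
        exact absurd hbq (not_lt.2 h4)
      have hLq : LR π q := by
        intro p hp
        have h3 : p ≤ i := by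
          rw [Fin.lt_def] at hp
          rw [Fin.le_def]
          omega
        have h4 : b p < b q := lt_of_le_of_lt (hb.mono _ _ h3) hbq
        have h5 := hb.order _ _ h4
        rw [hqq] at h5
        exact lt_of_le_of_lt (hb.first p) h5
      have hqj' : q < j := by
        refine lt_of_le_of_ne hqj fun he => ?_
        rw [he] at hLq
        exact hj hLq
      have ci := hi
      have cj := hj
      have cq := hLq
      rw [hLR, not_not] at ci cj
      rw [hLR] at cq
      have k1 := hm i q hiq
      have k2 := hm q j hqj'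
      have k3 := hm (b i) i hbi
      rw [K_lt] at k1 k2 k3
      have t1 := t_mono c h2.le
      rw [ci] at k1 k3
      rw [cj] at k2
      have h7 : (c (π q) : ℕ) ≠ 2 := fun h8 => cq (Fin.ext h8)
      have h8 := (c (π q)).isLt
      have e2 : ((2 : Fin 3) : ℕ) = 2 := rfl
      rw [e2] at k1 k2 k3
      omega
    · push Not at hlast
      obtain ⟨q, hq, hbq⟩ := hlast
      rw [hb.step i q hq hbq] at h2
      have hiq : i < q := by rw [Fin.lt_def]; omega
      have hqj : q < j := by
        rw [Fin.lt_def] at hij ⊢
        have : (q : ℕ) ≠ j := by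
          intro he
          rw [Fin.ext he] at h2
          exact lt_irrefl _ h2
        omega
      have hnq : ¬ LR π q := by
        intro h
        have h3 := hb.le i
        rw [← hbq] at h3
        exact absurd (h _ (lt_of_le_of_lt h3 hiq)) (not_lt.2 (hb.first q))
      have hnj : ¬ LR π j := fun h => absurd (h _ hqj) (not_lt.2 h2.le)
      exact absurd (h321 q j hnq hnj hqj) (not_lt.2 h2.le)
  · funext v
    obtain ⟨i, rfl⟩ := π.surjective v
    rw [code_apply]
    by_cases hi : LR π i
    · have h2 : c (π i) ≠ 2 := (hLR i).1 hi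
      have h2' : cl π i ≠ 2 := fun h => (cl_two π i).1 h hi
      have h1 : cl π i = 1 ↔ c (π i) = 1 := by
        rw [cl_one]
        constructor
        · rintro ⟨_, q, hq, hq'⟩
          by_contra hne
          have h0 : (c (π i) : ℕ) = 0 := by
            have h7 : (c (π i) : ℕ) ≠ 2 := fun h8 => h2 (Fin.ext h8)
            have h9 : (c (π i) : ℕ) ≠ 1 := fun h8 => hne (Fin.ext h8)
            have h8 := (c (π i)).isLt
            omega
          rw [hLR, not_not] at hq'
          obtain ⟨M, hM1, hM2, hM3⟩ := next (π q) hq'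
          obtain ⟨m, rfl⟩ := π.surjective M
          have h3 : K c (π m) < K c (π q) := by
            rw [K_lt]
            right
            refine ⟨hM3.symm, Or.inl ?_⟩
            rw [hq', hM2]
            decide
          have h4 := hm' _ _ h3
          have h5 : m < i := by
            rw [Fin.lt_def] at h4 ⊢
            have : (m : ℕ) ≠ i := by
              intro he
              rw [Fin.ext he] at hM2
              exact hne hM2
            omega
          have k1 := hm m i h5
          have k2 := hm i q (by rw [Fin.lt_def]; omega)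
          rw [K_lt] at k1 k2
          rw [hM2] at k1
          have e1 : ((1 : Fin 3) : ℕ) = 1 := rfl
          rw [e1] at k1
          omega
        · intro h
          obtain ⟨v, hv1, hv2, hv3⟩ := hP (π i) h
          obtain ⟨r, rfl⟩ := π.surjective v
          have ht : t c (π r) = t c (π i) := by
            refine t_eq c hv1.le fun u hu1 hu2 => ?_
            rcases hu1.lt_or_eq with h3 | h3
            · exact hv3 u h3 hu2
            · rw [← h3, hv2]
              decide
          have h3 : K c (π i) < K c (π r) := by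
            rw [K_lt]
            right
            refine ⟨ht.symm, Or.inl ?_⟩
            rw [hv2, h]
            decide
          have h4 := hm' _ _ h3
          have h4' := h4
          rw [Fin.lt_def] at h4'
          have hr := r.isLt
          obtain ⟨q, hq⟩ : ∃ q : Fin n, (q : ℕ) = i + 1 := ⟨⟨i + 1, by omega⟩, rfl⟩
          refine ⟨hi, q, hq, ?_⟩
          rw [hLR, not_not]
          have k1 := hm i q (by rw [Fin.lt_def]; omega)
          rw [K_lt] at k1
          rcases (show q ≤ r by rw [Fin.le_def]; omega).lt_or_eq with h5 | h5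
          · have k2 := hm q r h5
            rw [K_lt] at k2
            rw [h] at k1
            have e1 : ((1 : Fin 3) : ℕ) = 1 := rfl
            rw [e1] at k1
            by_contra hne
            have h7 : (c (π q) : ℕ) ≠ 2 := fun h8 => hne (Fin.ext h8)
            have h8 := (c (π q)).isLt
            have h9 : t c (π i) = t c (π q) := by omega
            have h10 : π i < π q := by
              rcases k1 with k1 | ⟨_, k1 | k1⟩
              · omega
              · omega
              · exact k1.2
            have := t_lt c le_rfl h10 h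
            omega
          · rw [h5]
            exact hv2
      have h7 : (c (π i) : ℕ) ≠ 2 := fun h8 => h2 (Fin.ext h8)
      have h8 := (c (π i)).isLt
      have h7' : (cl π i : ℕ) ≠ 2 := fun h8 => h2' (Fin.ext h8)
      have h8' := (cl π i).isLt
      have h1' : (cl π i : ℕ) = 1 ↔ (c (π i) : ℕ) = 1 := by
        have e1 : ((1 : Fin 3) : ℕ) = 1 := rfl
        rw [← e1, ← Fin.ext_iff, ← Fin.ext_iff]
        exact h1
      ext
      omega
    · rw [(cl_two π i).2 hi]
      rw [hLR, not_not] at hi
      exact hi.symm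

/-! ### Counting the codes -/

theorem P_snoc (c : Fin n → Fin 3) (e : Fin 3) :
    P (Fin.snoc c e : Fin (n + 1) → Fin 3) ↔ P c ∧ (e = 1 → Q c) := by
  unfold P Q
  constructor
  · intro h
    constructor
    · intro M hM
      obtain ⟨v, hv1, hv2, hv3⟩ := h M.castSucc (by simpa using hM)
      induction v using Fin.lastCases with
      | last => exact absurd hv1 (not_lt.2 (Fin.le_last _))
      | cast v =>
        refine ⟨v, by simpa using hv1, by simpa using hv2, fun u hu1 hu2 => ?_⟩
        have := hv3 u.castSucc (by simpa using hu1) (by simpa using hu2)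
        simpa using this
    · intro he
      obtain ⟨v, hv1, hv2, hv3⟩ := h (Fin.last n) (by simpa using he)
      induction v using Fin.lastCases with
      | last => exact absurd hv1 (lt_irrefl _)
      | cast v =>
        refine ⟨v, by simpa using hv2, fun u hu1 => ?_⟩
        have := hv3 u.castSucc (by simpa using hu1) (Fin.castSucc_lt_last u)
        simpa using this
  · rintro ⟨h1, h2⟩ M hM
    induction M using Fin.lastCases with
    | last =>
      obtain ⟨v, hv1, hv2⟩ := h2 (by simpa using hM)
      refine ⟨v.castSucc, Fin.castSucc_lt_last v, by simpa using hv1, fun u hu1 hu2 => ?_⟩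
      induction u using Fin.lastCases with
      | last => exact absurd hu2 (lt_irrefl _)
      | cast u =>
        have := hv2 u (by simpa using hu1)
        simpa using this
    | cast M =>
      obtain ⟨v, hv1, hv2, hv3⟩ := h1 M (by simpa using hM)
      refine ⟨v.castSucc, by simpa using hv1, by simpa using hv2, fun u hu1 hu2 => ?_⟩
      induction u using Fin.lastCases with
      | last => exact absurd hu2 (not_lt.2 (Fin.le_last _))
      | cast u =>
        have := hv3 u (by simpa using hu1) (by simpa using hu2)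
        simpa using this

theorem Q_snoc (c : Fin n → Fin 3) (e : Fin 3) :
    Q (Fin.snoc c e : Fin (n + 1) → Fin 3) ↔ e = 2 ∨ (e ≠ 1 ∧ Q c) := by
  unfold Q
  constructor
  · rintro ⟨v, hv1, hv2⟩
    induction v using Fin.lastCases with
    | last => exact Or.inl (by simpa using hv1)
    | cast v =>
      right
      have := hv2 (Fin.last n) (Fin.castSucc_lt_last v)
      refine ⟨by simpa using this, v, by simpa using hv1, fun u hu => ?_⟩
      have := hv2 u.castSucc (by simpa using hu)
      simpa using this
  · rintro (h | ⟨h1, v, hv1, hv2⟩)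
    · refine ⟨Fin.last n, by simpa using h, fun u hu => absurd hu (not_lt.2 (Fin.le_last _))⟩
    · refine ⟨v.castSucc, by simpa using hv1, fun u hu => ?_⟩
      induction u using Fin.lastCases with
      | last => simpa using h1
      | cast u =>
        have := hv2 u (by simpa using hu)
        simpa using this

open Classical in
/-- accepted codes, counted -/
noncomputable def cA (n : ℕ) : ℕ := ∑ c : Fin n → Fin 3, if P c ∧ ¬ Q c then 1 else 0

open Classical in
/-- the other codes, counted -/
noncomputable def cB (n : ℕ) : ℕ := ∑ c : Fin n → Fin 3, if P c ∧ Q c then 1 else 0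

theorem sum_snoc3 (F : (Fin (n + 1) → Fin 3) → ℕ) :
    ∑ c : Fin (n + 1) → Fin 3, F c = ∑ c : Fin n → Fin 3, (F (Fin.snoc c 0) + F (Fin.snoc c 1) +
      F (Fin.snoc c 2)) := by
  rw [← (Fin.snocEquiv (fun _ : Fin (n + 1) => Fin 3)).sum_comp, Fintype.sum_prod_type,
    Finset.sum_comm]
  refine Finset.sum_congr rfl fun c _ => ?_
  rw [Fin.sum_univ_three]
  rfl

theorem cA_succ (n : ℕ) : cA (n + 1) = cA n + cB n := by
  classical
  unfold cA cB
  rw [sum_snoc3, ← Finset.sum_add_distrib]
  refine Finset.sum_congr rfl fun c _ => ?_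
  simp only [P_snoc, Q_snoc]
  by_cases h1 : P c <;> by_cases h2 : Q c <;> simp [h1, h2]

theorem cB_succ (n : ℕ) : cB (n + 1) = cA n + 2 * cB n := by
  classical
  unfold cA cB
  rw [sum_snoc3, Finset.mul_sum, ← Finset.sum_add_distrib]
  refine Finset.sum_congr rfl fun c _ => ?_
  simp only [P_snoc, Q_snoc]
  by_cases h1 : P c <;> by_cases h2 : Q c <;> simp [h1, h2]

theorem count (n : ℕ) : cA (n + 1) = Nat.fib (2 * n + 1) ∧ cB (n + 1) = Nat.fib (2 * n + 2) := by
  induction n with
  | zero =>
    have hA : cA 0 = 1 := by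
      simp [cA, P, Q]
    have hB : cB 0 = 0 := by
      simp [cB, P, Q]
    rw [cA_succ, cB_succ, hA, hB]
    simp
  | succ n ih =>
    rw [cA_succ (n + 1), cB_succ (n + 1), ih.1, ih.2]
    have e1 : Nat.fib (2 * (n + 1) + 1) = Nat.fib (2 * n + 1) + Nat.fib (2 * n + 2) :=
      Nat.fib_add_two
    have e2 : Nat.fib (2 * (n + 1) + 2) = Nat.fib (2 * n + 2) + Nat.fib (2 * (n + 1) + 1) :=
      Nat.fib_add_two
    rw [e1] at e2 ⊢
    rw [e2]
    constructor
    · rfl
    · ring

/-- **The count is `F_{2n-1}`** for every `n ≥ 1`. -/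
theorem result (n : ℕ) (hn : 1 ≤ n) : a n = Nat.fib (2 * n - 1) := by
  classical
  have h : a n = cA n := by
    unfold a cA
    rw [← Finset.card_filter]
    refine Finset.card_bij (fun π _ => code π) ?_ ?_ ?_
    · intro π hπ
      simp only [Finset.mem_filter, Finset.mem_univ, true_and] at hπ ⊢
      exact ⟨code_P hπ.1 hπ.2, code_Q π⟩
    · intro π hπ π' hπ' he
      simp only [Finset.mem_filter, Finset.mem_univ, true_and] at hπ hπ'
      exact code_inj hπ.1 hπ.2 hπ'.1 hπ'.2 he
    · intro c hc
      simp only [Finset.mem_filter, Finset.mem_univ, true_and] at hc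
      obtain ⟨π, h1, h2⟩ := code_surj c hc.1 hc.2
      exact ⟨π, by simpa using h1, h2⟩
  obtain ⟨m, rfl⟩ : ∃ m, n = m + 1 := ⟨n - 1, by omega⟩
  rw [h, (count m).1]
  congr 1

end Pool.Agent.Results.MP_1ce666_co.Fibonacci
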